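import Pool.Agent.Helper71.PR.Basic

/-!
# Project PR, packet MIX: density of compact flats implies topological transitivity of the diagonal group
-/

set_option autoImplicit false

namespace Pool.Agent.Helper13.PR

open Matrix Filter Topology Pool.Agent.Helper71.PR

theorem diag_mul_inv {n : ℕ} (d : Fin n → ℝ) (h : ∀ i, d i ≠ 0) :
    (diagonal d : Mt n) * diagonal (fun i => (d i)⁻¹) = 1 := by
  rw [diagonal_mul_diagonal, ← diagonal_one]
  congr 1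
  funext i
  exact mul_inv_cancel₀ (h i)

theorem diag_inv_mul {n : ℕ} (d : Fin n → ℝ) (h : ∀ i, d i ≠ 0) :
    (diagonal (fun i => (d i)⁻¹) : Mt n) * diagonal d = 1 := by
  rw [diagonal_mul_diagonal, ← diagonal_one]
  congr 1
  funext i
  exact inv_mul_cancel₀ (h i)

theorem diag_inv {n : ℕ} (d : Fin n → ℝ) (h : ∀ i, d i ≠ 0) :
    (diagonal d : Mt n)⁻¹ = diagonal (fun i => (d i)⁻¹) :=
  Matrix.inv_eq_right_inv (diag_mul_inv d h)

theorem flat_diag {n : ℕ} {Γ : Subgroup (SLn n)} {k : Mt n} (h : Flat Γ k) (d : Fin n → ℝ) (hd : ∀ i, d i ≠ 0) :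
    Flat Γ (k * diagonal d) := by
  obtain ⟨R, hR⟩ := h
  refine ⟨R, fun y hy => ?_⟩
  obtain ⟨γ, hγ, μ, h1, h2⟩ := hR y hy
  refine ⟨γ, hγ, μ, ?_, h2⟩
  rw [h1, Matrix.mul_inv_rev, diag_inv d hd]
  have e : (diagonal d : Mt n) * diagonal μ * diagonal (fun i => (d i)⁻¹) = diagonal μ := by
    rw [diagonal_mul_diagonal, diagonal_mul_diagonal]
    congr 1
    funext i
    field_simp [hd i]
  calc k * diagonal μ * k⁻¹ = k * ((diagonal d : Mt n) * diagonal μ * diagonal (fun i => (d i)⁻¹)) * k⁻¹ := by rw [e]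
    _ = k * diagonal d * diagonal μ * (diagonal (fun i => (d i)⁻¹) * k⁻¹) := by
        simp only [Matrix.mul_assoc]

theorem pow_conj {n : ℕ} (k : Mt n) (hk : k.det ≠ 0) (μ : Fin n → ℝ) (m : ℕ) :
    (k * diagonal μ * k⁻¹) ^ m = k * diagonal (fun i => μ i ^ m) * k⁻¹ := by
  induction m with
  | zero =>
    have : (diagonal (fun i => μ i ^ 0) : Mt n) = 1 := by
      simp only [pow_zero]
      exact diagonal_one
    rw [pow_zero, this, Matrix.mul_one, Matrix.mul_nonsing_inv k (isUnit_iff_ne_zero.2 hk)]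
  | succ m ih =>
    rw [pow_succ, ih]
    have h1 : k⁻¹ * k = 1 := Matrix.nonsing_inv_mul k (isUnit_iff_ne_zero.2 hk)
    calc k * diagonal (fun i => μ i ^ m) * k⁻¹ * (k * diagonal μ * k⁻¹)
        = k * diagonal (fun i => μ i ^ m) * (k⁻¹ * k) * diagonal μ * k⁻¹ := by simp only [Matrix.mul_assoc]
      _ = k * (diagonal (fun i => μ i ^ m) * diagonal μ) * k⁻¹ := by
          rw [h1, Matrix.mul_one]; simp only [Matrix.mul_assoc]
      _ = k * diagonal (fun i => μ i ^ (m + 1)) * k⁻¹ := by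
          rw [diagonal_mul_diagonal]; simp only [pow_succ]

/-- normalisation vector -/
noncomputable def nv {n : ℕ} (hn : 1 ≤ n) (c : ℝ) : Fin n → ℝ := fun i => if i = ⟨0, hn⟩ then c⁻¹ else 1

theorem nv_ne {n : ℕ} (hn : 1 ≤ n) (c : ℝ) (hc : c ≠ 0) (i : Fin n) : nv hn c i ≠ 0 := by
  unfold nv
  split_ifs
  · exact inv_ne_zero hc
  · exact one_ne_zero

theorem prod_nv {n : ℕ} (hn : 1 ≤ n) (c : ℝ) : ∏ i, nv hn c i = c⁻¹ := by
  unfold nv
  rw [Finset.prod_ite_eq' Finset.univ (⟨0, hn⟩ : Fin n) (fun _ => c⁻¹)]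
  simp

theorem nv_one {n : ℕ} (hn : 1 ≤ n) : nv (n := n) hn 1 = fun _ => 1 := by
  funext i
  unfold nv
  split_ifs <;> simp

theorem nv_tendsto {n : ℕ} (hn : 1 ≤ n) {c : ℕ → ℝ} (h : Tendsto c atTop (𝓝 1)) :
    Tendsto (fun m => (diagonal (nv hn (c m)) : Mt n)) atTop (𝓝 1) := by
  rw [tendsto_mt_iff]
  intro i j
  by_cases hij : i = j
  · subst hij
    simp only [diagonal_apply_eq, one_apply_eq]
    unfold nv
    by_cases hi : i = ⟨0, hn⟩
    · simp only [if_pos hi]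
      have := h.inv₀ one_ne_zero
      simpa using this
    · simp only [if_neg hi]
      exact tendsto_const_nhds
  · simp only [diagonal_apply_ne _ hij, one_apply_ne hij]
    exact tendsto_const_nhds

/-- an invertible matrix near which there are frames of flats with nonvanishing leading minors -/
theorem dens_open {n : ℕ} {Γ : Subgroup (SLn n)} (hD : Dens Γ) (A g : Mt n) (hA : A.det ≠ 0)
    (h : ∀ j, ld j (A⁻¹ * g) ≠ 0) (η : ℝ) (hη : 0 < η) :
    ∃ k : Mt n, k.det ≠ 0 ∧ Flat Γ k ∧ near k A η ∧ ∀ j, ld j (k⁻¹ * g) ≠ 0 := by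
  have hs : ∀ m : ℕ, ∃ k : Mt n, k.det ≠ 0 ∧ Flat Γ k ∧ near k A (1 / ((m : ℝ) + 1)) :=
    fun m => hD A hA _ (by positivity)
  choose B hB1 hB2 hB3 using hs
  have hB : Tendsto B atTop (𝓝 A) := tendsto_of_near tendsto_const_nhds hB3
  have h1 : Tendsto (fun m => (B m)⁻¹ * g) atTop (𝓝 (A⁻¹ * g)) :=
    (tendsto_inv_mt hB hA).mul tendsto_const_nhds
  have h2 : ∀ᶠ m in atTop, ∀ j, ld j ((B m)⁻¹ * g) ≠ 0 := by
    rw [Filter.eventually_all]
    intro j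
    exact (((ld_continuous j).tendsto _).comp h1).eventually_ne (h j)
  obtain ⟨m, hm1, hm2⟩ := (h2.and (eventually_near hB hη)).exists
  exact ⟨B m, hB1 m, hB2 m, hm2, hm1⟩

/-- frames of determinant one close to `h` in general position to `g` -/
theorem good_frame (h1 : G_GEN) {n : ℕ} (hn : 1 ≤ n) {Γ : Subgroup (SLn n)} (hD : Dens Γ) (g : Mt n) (hg : g.det ≠ 0)
    (h : SLn n) (ε : ℝ) (hε : 0 < ε) :
    ∃ k : SLn n, Flat Γ k.1 ∧ near k.1 h.1 ε ∧ ∀ j, ld j (k.1⁻¹ * g) ≠ 0 := by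
  have hh : h.1.det ≠ 0 := by rw [h.2]; exact one_ne_zero
  have hs : ∀ m : ℕ, ∃ k : Mt n, k.det ≠ 0 ∧ Flat Γ k ∧ near k h.1 (1 / ((m : ℝ) + 1)) ∧
      ∀ j, ld j (k⁻¹ * g) ≠ 0 := by
    intro m
    have hp : (0 : ℝ) < 1 / ((m : ℝ) + 1) / 2 := by positivity
    obtain ⟨A, hA1, hA2, hA3⟩ := h1 n g h.1 hg hh _ hp
    obtain ⟨k, hk1, hk2, hk3, hk4⟩ := dens_open hD A g hA1 hA3 _ hp
    exact ⟨k, hk1, hk2, (hk3.trans hA2).mono (by linarith), hk4⟩
  choose B hB1 hB2 hB3 hB4 using hs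
  have hB : Tendsto B atTop (𝓝 h.1) := tendsto_of_near tendsto_const_nhds hB3
  have hd : Tendsto (fun m => (B m).det) atTop (𝓝 1) := by
    have := tendsto_det_mt hB
    rwa [h.2] at this
  have hC : Tendsto (fun m => B m * diagonal (nv hn (B m).det)) atTop (𝓝 h.1) := by
    have := hB.mul (nv_tendsto hn hd)
    rwa [Matrix.mul_one] at this
  obtain ⟨m, hm⟩ := (eventually_near hC hε).exists
  refine ⟨⟨B m * diagonal (nv hn (B m).det), ?_⟩, ?_, hm, ?_⟩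
  · rw [Matrix.det_mul, Matrix.det_diagonal, prod_nv, mul_inv_cancel₀ (hB1 m)]
  · exact flat_diag (hB2 m) _ (nv_ne hn _ (hB1 m))
  · intro j
    show ld j ((B m * diagonal (nv hn (B m).det))⁻¹ * g) ≠ 0
    rw [Matrix.mul_inv_rev, diag_inv _ (nv_ne hn _ (hB1 m)), Matrix.mul_assoc, ld_lowT_mul' _ (lowT_diagonal _)]
    refine mul_ne_zero (Finset.prod_ne_zero_iff.2 fun i _ => ?_) (hB4 m j)
    rw [diagonal_apply_eq]
    exact inv_ne_zero (nv_ne hn _ (hB1 m) i)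

theorem prod_mu {n : ℕ} (γ : SLn n) (k : Mt n) (hk : k.det ≠ 0) (μ : Fin n → ℝ) (h : γ.1 = k * diagonal μ * k⁻¹) :
    ∏ i, μ i = 1 := by
  have h1 := γ.2
  rw [h, Matrix.det_mul, Matrix.det_mul, Matrix.det_diagonal] at h1
  have h2 : k.det * (k⁻¹).det = 1 := by
    rw [← Matrix.det_mul, Matrix.mul_nonsing_inv k (isUnit_iff_ne_zero.2 hk), Matrix.det_one]
  calc ∏ i, μ i = (k.det * (k⁻¹).det) * ∏ i, μ i := by rw [h2, one_mul]
    _ = 1 := by rw [← h1]; ring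

theorem mix (h1 : G_GEN) (h2 : G_LDU1) (h3 : G_CHB) (h4 : G_CJ) (h5 : G_NRM) : G_MIX := by
  intro n hn Γ hD g h ε hε
  have hε2 : 0 < ε / 2 := by positivity
  obtain ⟨k, hkF, hkn⟩ := h5 n hn Γ hD g (ε / 2) hε2
  have hk : k.1.det ≠ 0 := by rw [k.2]; exact one_ne_zero
  obtain ⟨k', hkF', hkn', hld⟩ := good_frame h1 hn hD k.1 hk h (ε / 2) hε2
  have hk' : k'.1.det ≠ 0 := by rw [k'.2]; exact one_ne_zero
  obtain ⟨L, U, D, hL, hU, hD0, hLDU, -, -, -⟩ := h2 n (k'.1⁻¹ * k.1) hld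
  obtain ⟨γ, hγ, μ, hR, hμ0⟩ := h3 n hn Γ k.1 hk hkF
  obtain ⟨γ', hγ', μ', hR', hμ0'⟩ := h3 n hn Γ k'.1 hk' hkF'
  obtain ⟨-, hγe, hμ⟩ := hR
  obtain ⟨-, hγe', hμ'⟩ := hR'
  have hpμ := prod_mu γ k.1 hk μ hγe
  have hpμ' := prod_mu γ' k'.1 hk' μ' hγe'
  have hpD : ∏ i, D i = 1 := by
    have e := congrArg Matrix.det hLDU
    have e1 : (k'.1⁻¹).det = 1 := by
      have : k'.1.det * (k'.1⁻¹).det = 1 := by
        rw [← Matrix.det_mul, Matrix.mul_nonsing_inv _ (isUnit_iff_ne_zero.2 hk'), Matrix.det_one]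
      rwa [k'.2, one_mul] at this
    rw [Matrix.det_mul, Matrix.det_mul, Matrix.det_mul, Matrix.det_diagonal, hL.det, hU.det, e1, k.2] at e
    linarith
  -- the key relation `k U⁻¹ = k' L D`
  have hz : k.1 * U⁻¹ = k'.1 * L * diagonal D := by
    have e : k.1 = k'.1 * (L * diagonal D * U) := by
      rw [← hLDU, ← Matrix.mul_assoc, Matrix.mul_nonsing_inv _ (isUnit_iff_ne_zero.2 hk'), Matrix.one_mul]
    calc k.1 * U⁻¹ = k'.1 * (L * diagonal D * U) * U⁻¹ := by rw [← e]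
      _ = k'.1 * L * diagonal D * (U * U⁻¹) := by simp only [Matrix.mul_assoc]
      _ = k'.1 * L * diagonal D := by
          rw [Matrix.mul_nonsing_inv U hU.isUnit, Matrix.mul_one]
  have hcj := (h4 n (fun m i => μ i ^ m) (gap_pow μ hμ0 hμ)).2 (fun _ => U⁻¹) U⁻¹ (fun _ => hU.inv) tendsto_const_nhds
  have hcj' := (h4 n (fun m i => μ' i ^ m) (gap_pow μ' hμ0' hμ')).1 (fun _ => L) L (fun _ => hL) tendsto_const_nhds
  have hG : Tendsto (fun m : ℕ => k.1 * (diagonal (fun i => (μ i ^ m)⁻¹) * U⁻¹ * diagonal (fun i => μ i ^ m))) atTop (𝓝 k.1) := by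
    have := (tendsto_const_nhds (x := k.1)).mul hcj
    rwa [Matrix.mul_one] at this
  have hG' : Tendsto (fun m : ℕ => k'.1 * (diagonal (fun i => μ' i ^ m) * L * diagonal (fun i => (μ' i ^ m)⁻¹))) atTop
      (𝓝 k'.1) := by
    have := (tendsto_const_nhds (x := k'.1)).mul hcj'
    rwa [Matrix.mul_one] at this
  obtain ⟨m, hm1, hm2⟩ := ((eventually_near hG hε2).and (eventually_near hG' hε2)).exists
  have hμm : ∀ i, μ i ^ m ≠ 0 := fun i => pow_ne_zero m (hμ0 i)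
  have hμm' : ∀ i, μ' i ^ m ≠ 0 := fun i => pow_ne_zero m (hμ0' i)
  refine ⟨γ' ^ m * γ ^ m, mul_mem (pow_mem hγ' m) (pow_mem hγ m),
    ⟨k.1 * (diagonal (fun i => (μ i ^ m)⁻¹) * U⁻¹ * diagonal (fun i => μ i ^ m)), ?_⟩,
    fun i => (μ i ^ m)⁻¹ * (D i)⁻¹ * (μ' i ^ m)⁻¹, ?_, ?_, ?_⟩
  · rw [Matrix.det_mul, Matrix.det_mul, Matrix.det_mul, Matrix.det_diagonal, Matrix.det_diagonal, hU.inv.det, k.2,
      Finset.prod_inv_distrib, Finset.prod_pow, hpμ]
    simp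
  · rw [Finset.prod_mul_distrib, Finset.prod_mul_distrib, Finset.prod_inv_distrib, Finset.prod_inv_distrib,
      Finset.prod_inv_distrib, Finset.prod_pow, Finset.prod_pow, hpμ, hpμ', hpD]
    simp
  · exact (hm1.trans hkn).mono (by linarith)
  · have e : (γ' ^ m * γ ^ m).1 * (k.1 * (diagonal (fun i => (μ i ^ m)⁻¹) * U⁻¹ * diagonal (fun i => μ i ^ m))) *
        diagonal (fun i => (μ i ^ m)⁻¹ * (D i)⁻¹ * (μ' i ^ m)⁻¹) =
        k'.1 * (diagonal (fun i => μ' i ^ m) * L * diagonal (fun i => (μ' i ^ m)⁻¹)) := by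
      have e0 : (γ' ^ m * γ ^ m).1 = γ'.1 ^ m * γ.1 ^ m := by
        simp
      rw [e0, hγe, hγe', pow_conj _ hk, pow_conj _ hk']
      have a1 : k.1⁻¹ * k.1 = 1 := Matrix.nonsing_inv_mul _ (isUnit_iff_ne_zero.2 hk)
      have a2 : (diagonal (fun i => μ i ^ m) : Mt n) * diagonal (fun i => (μ i ^ m)⁻¹) = 1 := diag_mul_inv _ hμm
      have a3 : k'.1⁻¹ * k'.1 = 1 := Matrix.nonsing_inv_mul _ (isUnit_iff_ne_zero.2 hk')
      have a4 : (diagonal D : Mt n) * (diagonal (fun i => μ i ^ m) *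
          diagonal (fun i => (μ i ^ m)⁻¹ * (D i)⁻¹ * (μ' i ^ m)⁻¹)) = diagonal (fun i => (μ' i ^ m)⁻¹) := by
        rw [diagonal_mul_diagonal, diagonal_mul_diagonal]
        congr 1
        funext i
        have := hμm i
        have := hD0 i
        field_simp
      calc k'.1 * diagonal (fun i => μ' i ^ m) * k'.1⁻¹ * (k.1 * diagonal (fun i => μ i ^ m) * k.1⁻¹) *
            (k.1 * (diagonal (fun i => (μ i ^ m)⁻¹) * U⁻¹ * diagonal (fun i => μ i ^ m))) *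
            diagonal (fun i => (μ i ^ m)⁻¹ * (D i)⁻¹ * (μ' i ^ m)⁻¹)
          = k'.1 * diagonal (fun i => μ' i ^ m) * k'.1⁻¹ * (k.1 * (diagonal (fun i => μ i ^ m) * ((k.1⁻¹ * k.1) *
            (diagonal (fun i => (μ i ^ m)⁻¹) * (U⁻¹ * diagonal (fun i => μ i ^ m)))))) *
            diagonal (fun i => (μ i ^ m)⁻¹ * (D i)⁻¹ * (μ' i ^ m)⁻¹) := by simp only [Matrix.mul_assoc]
        _ = k'.1 * diagonal (fun i => μ' i ^ m) * k'.1⁻¹ * (k.1 * ((diagonal (fun i => μ i ^ m) *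
            diagonal (fun i => (μ i ^ m)⁻¹)) * (U⁻¹ * diagonal (fun i => μ i ^ m)))) *
            diagonal (fun i => (μ i ^ m)⁻¹ * (D i)⁻¹ * (μ' i ^ m)⁻¹) := by
            rw [a1, Matrix.one_mul]; simp only [Matrix.mul_assoc]
        _ = k'.1 * diagonal (fun i => μ' i ^ m) * k'.1⁻¹ * ((k.1 * U⁻¹) * diagonal (fun i => μ i ^ m)) *
            diagonal (fun i => (μ i ^ m)⁻¹ * (D i)⁻¹ * (μ' i ^ m)⁻¹) := by
            rw [a2, Matrix.one_mul]; simp only [Matrix.mul_assoc]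
        _ = k'.1 * (diagonal (fun i => μ' i ^ m) * ((k'.1⁻¹ * k'.1) * (L * (diagonal D *
            (diagonal (fun i => μ i ^ m) * diagonal (fun i => (μ i ^ m)⁻¹ * (D i)⁻¹ * (μ' i ^ m)⁻¹)))))) := by
            rw [hz]; simp only [Matrix.mul_assoc]
        _ = k'.1 * (diagonal (fun i => μ' i ^ m) * L * diagonal (fun i => (μ' i ^ m)⁻¹)) := by
            rw [a3, Matrix.one_mul, a4]; simp only [Matrix.mul_assoc]
    show near ((γ' ^ m * γ ^ m).1 * (k.1 * (diagonal (fun i => (μ i ^ m)⁻¹) * U⁻¹ * diagonal (fun i => μ i ^ m))) *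
        diagonal (fun i => (μ i ^ m)⁻¹ * (D i)⁻¹ * (μ' i ^ m)⁻¹)) h.1 ε
    rw [e]
    exact (hm2.trans hkn').mono (by linarith)

end Pool.Agent.Helper13.PR
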