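import Pool.Agent.Helper71.PR.Goals

/-!
# Project PR, packet N: simultaneous nonvanishing of matrix coefficients of exterior powers on `Γ`
-/

set_option autoImplicit false

namespace Pool.Agent.Helper13.PR

open Matrix Filter Topology Pool.Agent.Helper71.PR

/-- the polynomial whose value at `g` is the matrix coefficient -/
noncomputable def coefPoly {n : ℕ} (r : ℕ) (α β : JS r n → ℝ) : MvPolynomial (Fin n × Fin n) ℝ :=
  ∑ I : JS r n, ∑ K : JS r n, MvPolynomial.C (α I * β K) *
    ((Matrix.mvPolynomialX (Fin n) (Fin n) ℝ).submatrix I.emb K.emb).det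

theorem eval_coefPoly {n : ℕ} (r : ℕ) (α β : JS r n → ℝ) (g : Mt n) :
    MvPolynomial.eval (fun e => g e.1 e.2) (coefPoly r α β) = α ⬝ᵥ (cp r g *ᵥ β) := by
  unfold coefPoly
  rw [map_sum]
  simp only [dotProduct, Matrix.mulVec]
  refine Finset.sum_congr rfl fun I _ => ?_
  rw [map_sum, Finset.mul_sum]
  refine Finset.sum_congr rfl fun K _ => ?_
  rw [map_mul, MvPolynomial.eval_C, RingHom.map_det]
  have h : (MvPolynomial.eval (fun e : Fin n × Fin n => g e.1 e.2)).mapMatrix
      ((Matrix.mvPolynomialX (Fin n) (Fin n) ℝ).submatrix I.emb K.emb) = g.submatrix I.emb K.emb := by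
    ext a b
    simp [Matrix.mvPolynomialX_apply]
  rw [h]
  show α I * β K * (g.submatrix I.emb K.emb).det = α I * (cp r g I K * β K)
  unfold cp
  ring

theorem n_lem (h1 : G_IRR) (h2 : G_N1) : G_N := by
  intro n hn Γ hΓ ι _ r α β hα hβ
  obtain ⟨γ, hγ, h⟩ := h1 n hn Γ hΓ ι (fun i => coefPoly (r i) (α i) (β i)) (by
    intro i
    obtain ⟨g, hg⟩ := h2 n (r i) (α i) (β i) (hα i) (hβ i)
    refine ⟨g, ?_⟩
    rw [eval_coefPoly]
    exact hg)
  refine ⟨γ, hγ, fun i => ?_⟩
  have := h i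
  rw [eval_coefPoly] at this
  exact this

end Pool.Agent.Helper13.PR
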